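import Mathlib

set_option autoImplicit false

universe u v

namespace Pool.Agent.Results.MP_aa3754_al.DeltaIdentityFails

/-- A cubic form on `V` over `F`, with its first polarization `N₁ x y = N(x, y)`, which is
quadratic in `x` and linear in `y`. -/
structure CubicForm (F : Type u) (V : Type v) [Field F] [AddCommGroup V] [Module F V] where
  /-- the form `N` -/
  N : V → F
  /-- the polarization `N(x, y)`, for every `x` a linear form in `y` -/
  N₁ : V → V →ₗ[F] F
  /-- `N(x, y)` is quadratic in `x` -/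
  quadratic : ∀ y : V, ∃ B : V →ₗ[F] V →ₗ[F] F, ∀ x, N₁ x y = B x x
  /-- the expansion of `N (x + λ y)` -/
  expand : ∀ (x y : V) (l : F), N (x + l • y) = N x + l * N₁ x y + l ^ 2 * N₁ y x + l ^ 3 * N y

variable {F : Type u} {V : Type v} [Field F] [AddCommGroup V] [Module F V]

/-- The complete linearization `N(v, u, w)`. -/
def CubicForm.N₃ (C : CubicForm F V) (v u w : V) : F :=
  C.N (v + u + w) - C.N (v + u) - C.N (v + w) - C.N (u + w) + C.N u + C.N v + C.N w

/-- `T(r) = N(r, c, c) / 2`. -/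
def CubicForm.T (C : CubicForm F V) (c r : V) : F := C.N₃ r c c / 2

/-- `S(r, q) = N(r, q, c)`. -/
def CubicForm.S (C : CubicForm F V) (c r q : V) : F := C.N₃ r q c

/-- `N(r, q) = N(r, r, q) / 2`. -/
def CubicForm.N₂ (C : CubicForm F V) (r q : V) : F := C.N₃ r r q / 2

/-- The form `(r, q) = T(r) T(q) - S(r, q) - Δ(r, q)`. -/
def CubicForm.form (C : CubicForm F V) (Δ : V →ₗ[F] V →ₗ[F] F) (c r q : V) : F :=
  C.T c r * C.T c q - C.S c r q - Δ r q

/-- The sharp product `r # q = (r + q)^# - r^# - q^#`. -/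
def sharpMul (sharp : V → V) (r q : V) : V := sharp (r + q) - sharp r - sharp q

/-- `(N, Δ, #, c)` is a generalized sharped cubic form. -/
structure IsGenSharped (C : CubicForm F V) (Δ : V →ₗ[F] V →ₗ[F] F) (sharp : V → V) (c : V) :
    Prop where
  /-- `N(c) = 1` -/
  base : C.N c = 1
  /-- `Δ` is symmetric -/
  symm : ∀ r q, Δ r q = Δ q r
  /-- `Δ(r, c) = 0` -/
  base_zero : ∀ r, Δ r c = 0
  /-- the sharp map is quadratic -/
  quadratic : ∃ B : V →ₗ[F] V →ₗ[F] V, ∀ r, sharp r = B r r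
  /-- `(r # q, r) + (r^#, q) = 3 N(r, q)` -/
  trace : ∀ r q, C.form Δ c (sharpMul sharp r q) r + C.form Δ c (sharp r) q = 3 * C.N₂ r q
  /-- `(r^#)^# = (N(r) + Δ(r^#, r)) r` -/
  adjoint : ∀ r, sharp (sharp r) = (C.N r + Δ (sharp r) r) • r
  /-- `c # r = T(r) c - r` -/
  unit : ∀ r, sharpMul sharp c r = C.T c r • c - r

/-- The identity (⋆). -/
def DeltaIdentity (C : CubicForm F V) (Δ : V →ₗ[F] V →ₗ[F] F) (sharp : V → V) (c : V) : Prop :=
  ∀ r q s, Δ (sharpMul sharp r q) s - Δ r (sharpMul sharp q s) =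
    (1 / 3) * (C.T c s * Δ r q - C.T c r * Δ q s)

/-! ### The example on `F × F × F` -/

section Example

variable (F)

/-- the linear form `r ↦ r₁ + r₂ - 2 r₃` -/
def ell : (F × F × F) →ₗ[F] F where
  toFun r := r.1 + r.2.1 - 2 * r.2.2
  map_add' x y := by simp only [Prod.fst_add, Prod.snd_add]; ring
  map_smul' a x := by simp only [Prod.smul_fst, Prod.smul_snd, smul_eq_mul, RingHom.id_apply]; ring

/-- the coordinatewise adjoint -/
def shp (r : F × F × F) : F × F × F := (r.2.1 * r.2.2, r.1 * r.2.2, r.1 * r.2.1)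

/-- a bilinear map whose diagonal is `shp` -/
def shpB : (F × F × F) →ₗ[F] (F × F × F) →ₗ[F] (F × F × F) :=
  LinearMap.mk₂ F (fun x y => (x.2.1 * y.2.2, x.1 * y.2.2, x.1 * y.2.1))
    (by intro x y z; ext <;> simp [add_mul])
    (by intro a x y; ext <;> simp [mul_assoc])
    (by intro x y z; ext <;> simp [mul_add])
    (by intro a x y; ext <;> simp [mul_left_comm])

/-- the polarization of `shp` -/
def shpP (x y : F × F × F) : F × F × F :=
  (x.2.1 * y.2.2 + x.2.2 * y.2.1, x.1 * y.2.2 + x.2.2 * y.1, x.1 * y.2.1 + x.2.1 * y.1)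

/-- `Δ(r, q) = ℓ(r) ℓ(q)` -/
def dlt : (F × F × F) →ₗ[F] (F × F × F) →ₗ[F] F :=
  LinearMap.mk₂ F (fun x y => ell F x * ell F y)
    (by intro x y z; simp [add_mul])
    (by intro a x y; simp [mul_assoc])
    (by intro x y z; simp [mul_add])
    (by intro a x y; simp [mul_left_comm])

/-- the cubic form `N(r) = r₁ r₂ r₃ - ℓ(r^#) ℓ(r)` -/
def cub : CubicForm F (F × F × F) where
  N r := r.1 * r.2.1 * r.2.2 - ell F (shp F r) * ell F r
  N₁ x :=
    { toFun := fun y => (x.2.1 * x.2.2 * y.1 + x.1 * x.2.2 * y.2.1 + x.1 * x.2.1 * y.2.2) -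
        (ell F (shpP F x y) * ell F x + ell F (shp F x) * ell F y)
      map_add' := by
        intro y z
        simp only [ell, shpP, shp, LinearMap.coe_mk, AddHom.coe_mk, Prod.fst_add, Prod.snd_add]
        ring
      map_smul' := by
        intro a y
        simp only [ell, shpP, shp, LinearMap.coe_mk, AddHom.coe_mk, Prod.smul_fst, Prod.smul_snd,
          smul_eq_mul, RingHom.id_apply]
        ring }
  quadratic := by
    intro y
    refine ⟨LinearMap.mk₂ F (fun x z => (x.2.1 * z.2.2 * y.1 + x.1 * z.2.2 * y.2.1 +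
      x.1 * z.2.1 * y.2.2) -
        (ell F (shpP F x y) * ell F z + ell F (shpB F x z) * ell F y)) ?_ ?_ ?_ ?_, ?_⟩
    · intro x x' z
      simp only [ell, shpP, shpB, LinearMap.mk₂_apply, LinearMap.coe_mk, AddHom.coe_mk,
        Prod.fst_add, Prod.snd_add]
      ring
    · intro a x z
      simp only [ell, shpP, shpB, LinearMap.mk₂_apply, LinearMap.coe_mk, AddHom.coe_mk,
        Prod.smul_fst, Prod.smul_snd, smul_eq_mul]
      ring
    · intro x z z'
      simp only [ell, shpP, shpB, LinearMap.mk₂_apply, LinearMap.coe_mk, AddHom.coe_mk,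
        Prod.fst_add, Prod.snd_add]
      ring
    · intro a x z
      simp only [ell, shpP, shpB, LinearMap.mk₂_apply, LinearMap.coe_mk, AddHom.coe_mk,
        Prod.smul_fst, Prod.smul_snd, smul_eq_mul]
      ring
    · intro x
      simp only [ell, shpP, shp, shpB, LinearMap.mk₂_apply, LinearMap.coe_mk, AddHom.coe_mk]
  expand := by
    intro x y l
    simp only [ell, shpP, shp, LinearMap.coe_mk, AddHom.coe_mk, Prod.fst_add, Prod.snd_add,
      Prod.smul_fst, Prod.smul_snd, smul_eq_mul]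
    ring

/-- the base point -/
def bpt : F × F × F := (1, 1, 1)

lemma cub_N (r : F × F × F) : (cub F).N r = r.1 * r.2.1 * r.2.2 -
    (r.2.1 * r.2.2 + r.1 * r.2.2 - 2 * (r.1 * r.2.1)) * (r.1 + r.2.1 - 2 * r.2.2) := rfl

lemma cub_N₃ (x y z : F × F × F) : (cub F).N₃ x y z =
    (ell F x * ell F (shpP F y z) + ell F y * ell F (shpP F x z) +
      ell F z * ell F (shpP F x y)) * (-1) +
    (x.1 * y.2.1 * z.2.2 + x.1 * z.2.1 * y.2.2 + y.1 * x.2.1 * z.2.2 + y.1 * z.2.1 * x.2.2 +
      z.1 * x.2.1 * y.2.2 + z.1 * y.2.1 * x.2.2) := by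
  simp only [CubicForm.N₃, cub_N, ell, shpP, LinearMap.coe_mk, AddHom.coe_mk, Prod.fst_add,
    Prod.snd_add]
  ring

lemma dlt_apply (x y : F × F × F) : dlt F x y = ell F x * ell F y := rfl

lemma ell_apply (x : F × F × F) : ell F x = x.1 + x.2.1 - 2 * x.2.2 := rfl

lemma sharpMul_shp (x y : F × F × F) : sharpMul (shp F) x y = shpP F x y := by
  ext <;> simp only [sharpMul, shp, shpP, Prod.fst_add, Prod.snd_add, Prod.fst_sub,
    Prod.snd_sub] <;> ring

lemma cub_T (h2 : (2 : F) ≠ 0) (r : F × F × F) :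
    (cub F).T (bpt F) r = r.1 + r.2.1 + r.2.2 := by
  rw [CubicForm.T, cub_N₃, div_eq_iff h2]
  simp only [ell_apply, shpP, bpt]
  ring

lemma cub_S (r q : F × F × F) :
    (cub F).S (bpt F) r q = (r.1 * q.2.1 + r.1 * q.2.2 + r.2.1 * q.1 + r.2.1 * q.2.2 +
      r.2.2 * q.1 + r.2.2 * q.2.1) + 2 * (ell F r * ell F q) := by
  rw [CubicForm.S, cub_N₃]
  simp only [ell_apply, shpP, bpt]
  ring

lemma cub_N₂ (h2 : (2 : F) ≠ 0) (r q : F × F × F) :
    (cub F).N₂ r q = (r.2.1 * r.2.2 * q.1 + r.1 * r.2.2 * q.2.1 + r.1 * r.2.1 * q.2.2) -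
        (ell F (shpP F r q) * ell F r + ell F (shp F r) * ell F q) := by
  rw [CubicForm.N₂, cub_N₃, div_eq_iff h2]
  simp only [ell_apply, shpP, shp]
  ring

lemma cub_form (h2 : (2 : F) ≠ 0) (r q : F × F × F) :
    (cub F).form (dlt F) (bpt F) r q = r.1 * q.1 + r.2.1 * q.2.1 + r.2.2 * q.2.2 -
      3 * (ell F r * ell F q) := by
  rw [CubicForm.form, cub_T F h2, cub_T F h2, cub_S, dlt_apply]
  ring

theorem isGenSharped (h2 : (2 : F) ≠ 0) : IsGenSharped (cub F) (dlt F) (shp F) (bpt F) where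
  base := by
    rw [cub_N]
    simp only [bpt]
    ring
  symm r q := by
    rw [dlt_apply, dlt_apply, mul_comm]
  base_zero r := by
    rw [dlt_apply, ell_apply F (bpt F)]
    simp only [bpt]
    ring
  quadratic := ⟨shpB F, fun r => rfl⟩
  trace r q := by
    rw [cub_form F h2, cub_form F h2, cub_N₂ F h2, sharpMul_shp]
    simp only [ell_apply, shpP, shp]
    ring
  adjoint r := by
    rw [dlt_apply, cub_N]
    ext <;> simp only [ell_apply, shp, Prod.smul_fst, Prod.smul_snd, smul_eq_mul] <;> ring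
  unit r := by
    rw [cub_T F h2, sharpMul_shp]
    ext <;> simp only [shpP, bpt, Prod.smul_fst, Prod.smul_snd, smul_eq_mul, Prod.fst_sub,
      Prod.snd_sub] <;> ring

theorem not_deltaIdentity (h2 : (2 : F) ≠ 0) (h3 : (3 : F) ≠ 0) :
    ¬ DeltaIdentity (cub F) (dlt F) (shp F) (bpt F) := by
  intro h
  have := h (1, -1, 0) (1, -1, 0) (0, 1, -1)
  rw [cub_T F h2, cub_T F h2, sharpMul_shp, sharpMul_shp] at this
  simp only [dlt_apply, ell_apply, shpP] at this
  have h12 : (2 : F) * 2 * 3 = 0 := by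
    have e : (2 : F) * 2 * 3 = 12 := by norm_num
    rw [e]
    ring_nf at this
    exact this
  exact (mul_ne_zero (mul_ne_zero h2 h2) h3) h12

end Example

/-- **Over every field `F` in which `2` and `3` are invertible** there is a generalized sharped
cubic form (on a three-dimensional space) for which the identity (⋆) fails. -/
theorem result (F : Type u) [Field F] (h2 : (2 : F) ≠ 0) (h3 : (3 : F) ≠ 0) :
    ∃ (C : CubicForm F (F × F × F)) (Δ : (F × F × F) →ₗ[F] (F × F × F) →ₗ[F] F)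
      (sharp : (F × F × F) → (F × F × F)) (c : F × F × F),
      IsGenSharped C Δ sharp c ∧
      ∃ r q s : F × F × F, Δ (sharpMul sharp r q) s - Δ r (sharpMul sharp q s) ≠
        (1 / 3) * (C.T c s * Δ r q - C.T c r * Δ q s) := by
  refine ⟨cub F, dlt F, shp F, bpt F, isGenSharped F h2, ?_⟩
  have := not_deltaIdentity F h2 h3
  unfold DeltaIdentity at this
  push Not at this
  exact this

end Pool.Agent.Results.MP_aa3754_al.DeltaIdentityFails
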